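import Pool.Agent.Helper87.EC_C.WR

/-!
# MP_ecc237_nt (S18871), PART C: packet S3
-/

set_option autoImplicit false

open MeasureTheory Filter Topology Set

namespace ECC.PkS3

open EC237

theorem xx_pos (y : ℝ) : 0 < xx y := Real.exp_pos _

theorem xx_deriv (sg_ : G_SG) {y : ℝ} (hy : 0 < y) :
    HasDerivAt xx (-(2 / Real.pi) * sgp y * xx y) y := by
  have h := (((sg_ y hy).2.1).const_mul (-(2 / Real.pi))).exp
  refine h.congr_deriv ?_
  unfold xx
  ring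

theorem sgp_pos (sg_ : G_SG) (pos : G_POS) {y : ℝ} (hy : 0 < y) : 0 < sgp y := by
  rw [(sg_ y hy).1]
  obtain ⟨h1, _, h3, _⟩ := pos y hy
  have := Real.pi_pos
  positivity

theorem xx_anti (sg_ : G_SG) (pos : G_POS) : StrictAntiOn xx (Ioi 0) := by
  refine strictAntiOn_of_hasDerivWithinAt_neg (convex_Ioi 0) (f' := fun y =>
    -(2 / Real.pi) * sgp y * xx y) ?_ ?_ ?_
  · intro y hy
    exact (xx_deriv sg_ hy).continuousAt.continuousWithinAt
  · intro y hy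
    rw [interior_Ioi] at hy
    exact (xx_deriv sg_ hy).hasDerivWithinAt
  · intro y hy
    rw [interior_Ioi] at hy
    have h1 := sgp_pos sg_ pos hy
    have h2 := xx_pos y
    have h3 := Real.pi_pos
    have : 0 < (2 / Real.pi) * sgp y * xx y := by positivity
    linarith

theorem xx_sq (sg_ : G_SG) {y : ℝ} (hy : 0 < y) : xx y ^ 2 = ww y := by
  rw [← (sg_ y hy).2.2]
  unfold xx
  rw [← Real.exp_nat_mul]
  congr 1
  push_cast
  ring

theorem xx_lim (sg_ : G_SG) : Tendsto xx atTop (𝓝 0) := by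
  have h1 := (Real.continuous_sqrt.tendsto 0).comp PkWR.w_lim
  rw [Real.sqrt_zero] at h1
  refine h1.congr' ?_
  filter_upwards [eventually_gt_atTop 0] with y hy
  simp only [Function.comp]
  rw [← xx_sq sg_ hy, Real.sqrt_sq (xx_pos y).le]

theorem xx_image (sg_ : G_SG) (pos : G_POS) {ε : ℝ} (hε : 0 < ε) :
    xx '' (Ioi ε) = Ioo 0 (xx ε) := by
  ext x
  constructor
  · rintro ⟨y, hy, rfl⟩
    exact ⟨xx_pos y, xx_anti sg_ pos hε (lt_trans hε hy) hy⟩
  · rintro ⟨h1, h2⟩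
    have h3 : ∀ᶠ y in atTop, xx y < x := (xx_lim sg_).eventually (gt_mem_nhds h1)
    obtain ⟨z, hz, hz2⟩ := (h3.and (eventually_gt_atTop ε)).exists
    have hcont : ContinuousOn xx (Icc ε z) := fun y hy =>
      (xx_deriv sg_ (lt_of_lt_of_le hε hy.1)).continuousAt.continuousWithinAt
    obtain ⟨y, hy, hyx⟩ := intermediate_value_Ioo' hz2.le hcont ⟨hz, h2⟩
    exact ⟨y, hy.1, hyx⟩

theorem int_eq (bx : G_BX) (sg_ : G_SG) (pos : G_POS) {ε : ℝ} (hε : 0 < ε) :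
    ∫ y in Ioi ε, n1 y ^ 2 * sgp y =
      2 * Real.pi ^ 3 / 3 * ∫ x in (0:ℝ)..(xx ε), bb x ^ 2 / x := by
  have hanti := xx_anti sg_ pos
  have h1 : ∫ x in (0:ℝ)..(xx ε), bb x ^ 2 / x = ∫ x in Ioo 0 (xx ε), bb x ^ 2 / x := by
    rw [intervalIntegral.integral_of_le (xx_pos ε).le, integral_Ioc_eq_integral_Ioo]
  have h2 := integral_image_eq_integral_abs_deriv_smul (s := Ioi ε) (f := xx)
    (f' := fun y => -(2 / Real.pi) * sgp y * xx y) measurableSet_Ioi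
    (fun y hy => (xx_deriv sg_ (lt_trans hε hy)).hasDerivWithinAt)
    (hanti.injOn.mono (fun y hy => lt_trans hε hy)) (fun x => bb x ^ 2 / x)
  rw [xx_image sg_ pos hε] at h2
  rw [h1, h2, ← integral_const_mul]
  refine setIntegral_congr_fun measurableSet_Ioi (fun y hy => ?_)
  have hy0 : 0 < y := lt_trans hε hy
  have h3 := sgp_pos sg_ pos hy0
  have h4 := xx_pos y
  have hpi := Real.pi_pos
  have h5 : |-(2 / Real.pi) * sgp y * xx y| = 2 / Real.pi * sgp y * xx y := by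
    rw [show -(2 / Real.pi) * sgp y * xx y = -(2 / Real.pi * sgp y * xx y) by ring, abs_neg,
      abs_of_pos (by positivity)]
  simp only [smul_eq_mul]
  rw [h5, bx y hy0]
  have h6 : Real.sqrt 3 ^ 2 = 3 := Real.sq_sqrt (by norm_num)
  field_simp
  rw [h6]

theorem qn_le {ε y : ℝ} (hy : ε ≤ y) : |Qn y| ≤ Real.exp (-(Real.pi * ε)) := by
  rw [abs_Qn]
  apply Real.exp_le_exp.2
  have := Real.pi_pos
  nlinarith

theorem sgp_bdd (sg_ : G_SG) {ε : ℝ} (hε : 0 < ε) : ∃ K : ℝ, ∀ y, ε ≤ y → |sgp y| ≤ K := by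
  have hr : Real.exp (-(Real.pi * ε)) < 1 := by
    rw [Real.exp_lt_one_iff]
    have := mul_pos Real.pi_pos hε
    linarith
  obtain ⟨C, hC, h⟩ := LS_bound PG.chi hr
  have ha : ∀ q : ℝ, |q| ≤ Real.exp (-(Real.pi * ε)) → |aS q| ≤ 1 + 6 * C := by
    intro q hq
    have h1 := h q hq
    have h2 : |q| ≤ 1 := hq.trans hr.le
    unfold aS
    refine (abs_add_le _ _).trans ?_
    rw [abs_one, abs_mul, show |(6:ℝ)| = 6 by norm_num]
    nlinarith [abs_nonneg q]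
  refine ⟨Real.pi ^ 2 / 4 * ((3 * (1 + 6 * C)) * (3 * (1 + 6 * C))), fun y hy => ?_⟩
  rw [(sg_ y (lt_of_lt_of_le hε hy)).1, abs_mul, abs_mul]
  have hq := qn_le hy
  have hq2 : |Qn y ^ 2| ≤ Real.exp (-(Real.pi * ε)) := by
    rw [abs_pow]
    have := abs_nonneg (Qn y)
    nlinarith
  have h1 := ha _ hq
  have h2 := ha _ hq2
  have h3 : |AA (Qn y)| ≤ 3 * (1 + 6 * C) := by
    unfold AA
    rw [abs_le] at h1 h2 ⊢
    constructor <;> linarith [h1.1, h1.2, h2.1, h2.2]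
  have h4 : |CC (Qn y)| ≤ 3 * (1 + 6 * C) := by
    unfold CC
    rw [abs_le] at h1 h2 ⊢
    constructor <;> linarith [h1.1, h1.2, h2.1, h2.2]
  have h5 : |Real.pi ^ 2 / 4| = Real.pi ^ 2 / 4 := abs_of_nonneg (by positivity)
  rw [h5]
  gcongr

theorem sgp_cont (sg_ : G_SG) : ContinuousOn sgp (Ioi 0) := by
  have h : ContinuousOn (fun y => Real.pi ^ 2 / 4 * (AA (Qn y) * CC (Qn y))) (Ioi 0) := by
    intro y hy
    have h1 := (aS_Qn_deriv (y := y) hy).continuousAt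
    have h2 := (aS_Qn2_deriv (y := y) hy).continuousAt
    have h3 : ContinuousAt (fun y => AA (Qn y)) y := (h2.const_mul 2).sub h1
    have h4 : ContinuousAt (fun y => CC (Qn y)) y := (h1.add (h2.const_mul 2)).div_const 3
    exact ((h3.mul h4).const_mul _).continuousWithinAt
  exact h.congr (fun y hy => (sg_ y hy).1)

theorem integrable (sg_ : G_SG) (n1_ : G_N1) {ε : ℝ} (hε : 0 < ε) :
    IntegrableOn (fun y => n1 y ^ 2 * sgp y) (Ioi ε) := by
  obtain ⟨K, hK⟩ := sgp_bdd sg_ hε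
  obtain ⟨C, hC⟩ := n1_.2 ε hε
  have hmeas : AEStronglyMeasurable (fun y => n1 y ^ 2 * sgp y) (volume.restrict (Ioi ε)) := by
    refine ContinuousOn.aestronglyMeasurable ?_ measurableSet_Ioi
    have h1 : ContinuousOn n1 (Ioi ε) := fun y hy =>
      ((n1_.1 y (lt_trans hε hy)).2).continuousAt.continuousWithinAt
    exact (h1.pow 2).mul ((sgp_cont sg_).mono (fun y hy => lt_trans hε hy))
  have hexp : IntegrableOn (fun y : ℝ => C ^ 2 * K * Real.exp (-(2 * Real.pi) * y)) (Ioi ε) := by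
    refine Integrable.const_mul ?_ _
    exact integrableOn_exp_mul_Ioi (by have := Real.pi_pos; linarith) ε
  refine Integrable.mono' hexp hmeas ?_
  rw [ae_restrict_iff' measurableSet_Ioi]
  refine Eventually.of_forall (fun y hy => ?_)
  have h1 := hC y (le_of_lt hy)
  have h2 := hK y (le_of_lt hy)
  rw [Real.norm_eq_abs, abs_mul, abs_pow]
  have h3 : |n1 y| ^ 2 ≤ (C * Real.exp (-(Real.pi * y))) ^ 2 :=
    pow_le_pow_left₀ (abs_nonneg _) h1 2
  have h4 : (C * Real.exp (-(Real.pi * y))) ^ 2 = C ^ 2 * Real.exp (-(2 * Real.pi) * y) := by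
    rw [mul_pow, ← Real.exp_nat_mul]
    congr 2
    push_cast
    ring
  rw [h4] at h3
  calc |n1 y| ^ 2 * |sgp y| ≤ (C ^ 2 * Real.exp (-(2 * Real.pi) * y)) * K :=
        mul_le_mul h3 h2 (abs_nonneg _) (by positivity)
    _ = C ^ 2 * K * Real.exp (-(2 * Real.pi) * y) := by ring

theorem log_xx (y : ℝ) : Real.log (xx y) = -(2 / Real.pi) * sg y := by
  unfold xx
  rw [Real.log_exp]

theorem pow5_diff (u v K : ℝ) (hu : |u| ≤ K) (hv : |v| ≤ K) :
    |u ^ 5 - v ^ 5| ≤ 5 * K ^ 4 * |u - v| := by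
  have h : u ^ 5 - v ^ 5 = (u ^ 4 + u ^ 3 * v + u ^ 2 * v ^ 2 + u * v ^ 3 + v ^ 4) * (u - v) := by
    ring
  have hK : 0 ≤ K := (abs_nonneg u).trans hu
  rw [h, abs_mul]
  refine mul_le_mul_of_nonneg_right ?_ (abs_nonneg _)
  have h1 : |u ^ 4| ≤ K ^ 4 := by
    rw [abs_pow]
    exact pow_le_pow_left₀ (abs_nonneg _) hu 4
  have h2 : |u ^ 3 * v| ≤ K ^ 4 := by
    rw [abs_mul, abs_pow]
    calc |u| ^ 3 * |v| ≤ K ^ 3 * K := by gcongr
      _ = K ^ 4 := by ring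
  have h3 : |u ^ 2 * v ^ 2| ≤ K ^ 4 := by
    rw [abs_mul, abs_pow, abs_pow]
    calc |u| ^ 2 * |v| ^ 2 ≤ K ^ 2 * K ^ 2 := by gcongr
      _ = K ^ 4 := by ring
  have h4 : |u * v ^ 3| ≤ K ^ 4 := by
    rw [abs_mul, abs_pow]
    calc |u| * |v| ^ 3 ≤ K * K ^ 3 := by gcongr
      _ = K ^ 4 := by ring
  have h5 : |v ^ 4| ≤ K ^ 4 := by
    rw [abs_pow]
    exact pow_le_pow_left₀ (abs_nonneg _) hv 4
  have := abs_add_le (u ^ 4 + u ^ 3 * v + u ^ 2 * v ^ 2 + u * v ^ 3) (v ^ 4)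
  have := abs_add_le (u ^ 4 + u ^ 3 * v + u ^ 2 * v ^ 2) (u * v ^ 3)
  have := abs_add_le (u ^ 4 + u ^ 3 * v) (u ^ 2 * v ^ 2)
  have := abs_add_le (u ^ 4) (u ^ 3 * v)
  linarith

/-- `(log x(ε))^5 - ((π/6)/ε)^5 → 0`, and `x(ε) → ∞`. -/
theorem log_lim (s3s : S3s) :
    Tendsto (fun ε : ℝ => Real.log (xx ε) ^ 5 - (Real.pi / 6 * ε⁻¹) ^ 5) (𝓝[>] 0) (𝓝 0) ∧
      Tendsto xx (𝓝[>] 0) atTop := by
  obtain ⟨C, c, hc, h⟩ := s3s
  have hpi := Real.pi_pos
  have hC : 0 ≤ C := by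
    have := (abs_nonneg _).trans (h 1 one_pos le_rfl)
    by_contra hneg
    push Not at hneg
    have h2 : C * Real.exp (-(c / 1)) < 0 := mul_neg_of_neg_of_pos hneg (Real.exp_pos _)
    linarith
  have hinv : Tendsto (fun ε : ℝ => ε⁻¹) (𝓝[>] 0) atTop := tendsto_inv_nhdsGT_zero
  have hbd : ∀ ε : ℝ, 0 < ε → ε ≤ 1 →
      |Real.log (xx ε) - Real.pi / 6 * ε⁻¹| ≤ 2 / Real.pi * C * Real.exp (-(c * ε⁻¹)) := by
    intro ε h0 h1
    have h2 := h ε h0 h1
    rw [log_xx]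
    have e : -(2 / Real.pi) * sg ε - Real.pi / 6 * ε⁻¹ =
        -(2 / Real.pi) * (sg ε + Real.pi ^ 2 / 12 * ε⁻¹) := by
      field_simp
      ring
    rw [e, abs_mul, abs_neg, abs_of_pos (by positivity : (0:ℝ) < 2 / Real.pi), mul_assoc]
    have e2 : c / ε = c * ε⁻¹ := div_eq_mul_inv c ε
    rw [e2] at h2
    gcongr
  constructor
  · -- the difference
    set K : ℝ := Real.pi / 6 + 2 / Real.pi * C with hK
    have h3 : Tendsto (fun t : ℝ => 5 * K ^ 4 * (2 / Real.pi * C) * (t ^ 4 * Real.exp (-c * t)))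
        atTop (𝓝 0) := by
      have h4 : Tendsto (fun t : ℝ => t ^ 4 * Real.exp (-c * t)) atTop (𝓝 0) := by
        have h5 := tendsto_rpow_mul_exp_neg_mul_atTop_nhds_zero 4 c hc
        refine h5.congr ?_
        intro t
        norm_num
      have := h4.const_mul (5 * K ^ 4 * (2 / Real.pi * C))
      rw [mul_zero] at this
      exact this
    refine squeeze_zero_norm' ?_ (h3.comp hinv)
    have hmem : Ioc (0:ℝ) 1 ∈ 𝓝[>] (0:ℝ) := Ioc_mem_nhdsGT one_pos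
    filter_upwards [hmem] with ε hε
    have ht : 1 ≤ ε⁻¹ := (one_le_inv₀ hε.1).2 hε.2
    have h6 := hbd ε hε.1 hε.2
    have h7 : Real.exp (-(c * ε⁻¹)) ≤ 1 := by
      rw [Real.exp_le_one_iff]
      have : 0 < c * ε⁻¹ := by positivity
      linarith
    have hv : |Real.pi / 6 * ε⁻¹| ≤ K * ε⁻¹ := by
      rw [abs_of_pos (by positivity), hK]
      have : 0 ≤ 2 / Real.pi * C := by positivity
      nlinarith
    have hu : |Real.log (xx ε)| ≤ K * ε⁻¹ := by
      have h8 : |Real.log (xx ε)| ≤ |Real.log (xx ε) - Real.pi / 6 * ε⁻¹| +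
          |Real.pi / 6 * ε⁻¹| := by
        have := abs_add_le (Real.log (xx ε) - Real.pi / 6 * ε⁻¹) (Real.pi / 6 * ε⁻¹)
        simpa using this
      have h9 : |Real.pi / 6 * ε⁻¹| = Real.pi / 6 * ε⁻¹ := abs_of_pos (by positivity)
      rw [h9] at h8
      have h10 : 0 ≤ 2 / Real.pi * C := by positivity
      have h11 : 2 / Real.pi * C * Real.exp (-(c * ε⁻¹)) ≤ 2 / Real.pi * C * ε⁻¹ :=
        mul_le_mul_of_nonneg_left (h7.trans ht) h10
      rw [hK]
      linarith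
    rw [Real.norm_eq_abs]
    refine (pow5_diff _ _ _ hu hv).trans ?_
    simp only [Function.comp]
    have e3 : -c * ε⁻¹ = -(c * ε⁻¹) := by ring
    rw [e3]
    calc 5 * (K * ε⁻¹) ^ 4 * |Real.log (xx ε) - Real.pi / 6 * ε⁻¹|
        ≤ 5 * (K * ε⁻¹) ^ 4 * (2 / Real.pi * C * Real.exp (-(c * ε⁻¹))) := by gcongr
      _ = _ := by ring
  · -- the limit at infinity
    have hlog : Tendsto (fun ε : ℝ => Real.log (xx ε)) (𝓝[>] 0) atTop := by
      have h3 : Tendsto (fun ε : ℝ => Real.pi / 6 * ε⁻¹ - 2 / Real.pi * C) (𝓝[>] 0) atTop := by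
        have h4 : Tendsto (fun ε : ℝ => Real.pi / 6 * ε⁻¹) (𝓝[>] 0) atTop :=
          hinv.const_mul_atTop (by positivity)
        exact tendsto_atTop_add_const_right _ _ h4
      refine tendsto_atTop_mono' _ ?_ h3
      have hmem : Ioc (0:ℝ) 1 ∈ 𝓝[>] (0:ℝ) := Ioc_mem_nhdsGT one_pos
      filter_upwards [hmem] with ε hε
      have h6 := hbd ε hε.1 hε.2
      have h7 : Real.exp (-(c * ε⁻¹)) ≤ 1 := by
        rw [Real.exp_le_one_iff]
        have : 0 < c * ε⁻¹ := by have := inv_pos.2 hε.1; positivity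
        linarith
      have h8 : 2 / Real.pi * C * Real.exp (-(c * ε⁻¹)) ≤ 2 / Real.pi * C * 1 :=
        mul_le_mul_of_nonneg_left h7 (by positivity)
      have h9 := (abs_le.1 h6).1
      linarith
    refine (Real.tendsto_exp_atTop.comp hlog).congr ?_
    intro ε
    simp only [Function.comp]
    rw [Real.exp_log (xx_pos ε)]

theorem s3 (bx : G_BX) (sg_ : G_SG) (_w : G_W) (pos : G_POS) (n1_ : G_N1) (s3s : S3s) : S3 := by
  intro V hV
  refine ⟨fun ε hε => integrable sg_ n1_ hε,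
    Polynomial.C (2 * Real.pi ^ 3 / 3 * (Real.pi / 6) ^ 5 / 5) * Polynomial.X ^ 5, ?_, ?_⟩
  · simp
  · obtain ⟨h1, h2⟩ := log_lim s3s
    have h3 := (hV.comp h2).const_mul (2 * Real.pi ^ 3 / 3)
    have h4 := h1.const_mul (2 * Real.pi ^ 3 / 3 / 5)
    have h5 := h3.add h4
    rw [mul_zero, add_zero] at h5
    refine h5.congr' ?_
    filter_upwards [self_mem_nhdsWithin] with ε hε
    have hε0 : 0 < ε := hε
    simp only [Function.comp, Polynomial.eval_mul, Polynomial.eval_C, Polynomial.eval_pow,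
      Polynomial.eval_X]
    rw [int_eq bx sg_ pos hε0]
    ring

end ECC.PkS3
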