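import Pool.Agent.Helper2.EC_C.Goals
import Pool.Agent.Helper2.EC_C.Basic

/-!
# MP_ecc237_nt (S18871), PART C: packet WR
-/

set_option autoImplicit false

open MeasureTheory Filter Topology Set

namespace ECC.PkWR

open EC237

/-- a function with zero derivative equals its limit at infinity -/
theorem const_lim {f : ℝ → ℝ} {L : ℝ} (hf : ∀ y : ℝ, 0 < y → HasDerivAt f 0 y)
    (hl : Tendsto f atTop (𝓝 L)) {y : ℝ} (hy : 0 < y) : f y = L := by
  have h : ∀ z, y ≤ z → f z = f y := by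
    intro z hz
    refine constant_of_has_deriv_right_zero (a := y) (b := z) (f := f) ?_ ?_ z ⟨hz, le_rfl⟩
    · intro x hx
      exact (hf x (hy.trans_le hx.1)).continuousAt.continuousWithinAt
    · intro x hx
      exact (hf x (hy.trans_le hx.1)).hasDerivWithinAt
  have h1 : Tendsto f atTop (𝓝 (f y)) := by
    refine tendsto_const_nhds.congr' ?_
    filter_upwards [eventually_ge_atTop y] with z hz
    exact (h z hz).symm
  exact tendsto_nhds_unique h1 hl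

/-- `a` -/
noncomputable def fa (y : ℝ) : ℝ := aS (Qn y)

/-- `β` -/
noncomputable def fb (y : ℝ) : ℝ := aS (Qn y ^ 2)

/-- `E2` -/
noncomputable def fP (y : ℝ) : ℝ := PS (Qn y)

/-- `θ B` -/
noncomputable def fT (y : ℝ) : ℝ :=
  ((fa y + fb y) * fP y + 3 * fa y ^ 3 + 7 * (fa y ^ 2 * fb y) - 4 * (fa y * fb y ^ 2)
    - 8 * fb y ^ 3) / 24

theorem fa_deriv (th : G_TH) {y : ℝ} (hy : 0 < y) : HasDerivAt fa
    (-Real.pi * ((fa y * fP y + fa y ^ 3 + 6 * (fa y ^ 2 * fb y) - 8 * fb y ^ 3) / 12)) y := by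
  refine (aS_Qn_deriv hy).congr_deriv ?_
  have h := (th (Qn y) (abs_Qn_lt hy)).1
  unfold fa fb fP
  unfold AA BB at h
  have h2 : aT (Qn y) = (aS (Qn y) * PS (Qn y) + aS (Qn y) ^ 3 +
      6 * (aS (Qn y) ^ 2 * aS (Qn y ^ 2)) - 8 * aS (Qn y ^ 2) ^ 3) / 12 := by
    linear_combination h / 12
  rw [h2]

theorem fb_deriv (th : G_TH) {y : ℝ} (hy : 0 < y) : HasDerivAt fb
    (-Real.pi * ((fb y * fP y + 2 * fa y ^ 3 + fa y ^ 2 * fb y - 4 * (fa y * fb y ^ 2)) / 12)) y := by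
  refine (aS_Qn2_deriv hy).congr_deriv ?_
  have h := (th (Qn y) (abs_Qn_lt hy)).2.1
  unfold fa fb fP
  unfold AA BB at h
  have h2 : 2 * aT (Qn y ^ 2) = (aS (Qn y ^ 2) * PS (Qn y) + 2 * aS (Qn y) ^ 3 +
      aS (Qn y) ^ 2 * aS (Qn y ^ 2) - 4 * (aS (Qn y) * aS (Qn y ^ 2) ^ 2)) / 12 := by
    linear_combination h / 12
  rw [h2]

theorem fP_deriv (th : G_TH) {y : ℝ} (hy : 0 < y) : HasDerivAt fP
    (-Real.pi * ((fP y ^ 2 - 5 * fa y ^ 4 - 12 * (fa y ^ 3 * fb y) + 16 * (fa y * fb y ^ 3)) / 12))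
    y := by
  refine (PS_Qn_deriv hy).congr_deriv ?_
  have h := (th (Qn y) (abs_Qn_lt hy)).2.2.1
  unfold fa fb fP
  unfold AA BB at h
  have h2 : -24 * GT (Qn y) = (PS (Qn y) ^ 2 - 5 * aS (Qn y) ^ 4 -
      12 * (aS (Qn y) ^ 3 * aS (Qn y ^ 2)) + 16 * (aS (Qn y) * aS (Qn y ^ 2) ^ 3)) / 12 := by
    linear_combination h / 12
  rw [h2]

theorem BB_eq (y : ℝ) : BB (Qn y) = (fa y + fb y) / 2 := rfl
theorem AA_eq (y : ℝ) : AA (Qn y) = 2 * fb y - fa y := rfl
theorem CC_eq (y : ℝ) : CC (Qn y) = (fa y + 2 * fb y) / 3 := rfl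
theorem DD_eq (y : ℝ) : DD (Qn y) = (fa y - fb y) / 6 := rfl
theorem ww_eq (y : ℝ) : ww y = -9 * ((fa y - fb y) / 6) / ((fa y + fb y) / 2) := rfl

theorem BB_deriv (th : G_TH) {y : ℝ} (hy : 0 < y) :
    HasDerivAt (fun y => BB (Qn y)) (-Real.pi * fT y) y := by
  have h := ((fa_deriv th hy).add (fb_deriv th hy)).div_const 2
  refine h.congr_deriv ?_
  unfold fT
  ring

theorem fT_deriv (th : G_TH) {y : ℝ} (hy : 0 < y) : HasDerivAt fT
    (-Real.pi * (((((fa y * fP y + fa y ^ 3 + 6 * (fa y ^ 2 * fb y) - 8 * fb y ^ 3) / 12) +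
      ((fb y * fP y + 2 * fa y ^ 3 + fa y ^ 2 * fb y - 4 * (fa y * fb y ^ 2)) / 12)) * fP y
      + (fa y + fb y) * ((fP y ^ 2 - 5 * fa y ^ 4 - 12 * (fa y ^ 3 * fb y)
        + 16 * (fa y * fb y ^ 3)) / 12)
      + (9 * fa y ^ 2 + 14 * (fa y * fb y) - 4 * fb y ^ 2) *
        ((fa y * fP y + fa y ^ 3 + 6 * (fa y ^ 2 * fb y) - 8 * fb y ^ 3) / 12)
      + (7 * fa y ^ 2 - 8 * (fa y * fb y) - 24 * fb y ^ 2) *
        ((fb y * fP y + 2 * fa y ^ 3 + fa y ^ 2 * fb y - 4 * (fa y * fb y ^ 2)) / 12)) / 24)) y := by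
  have ha := fa_deriv th hy
  have hb := fb_deriv th hy
  have hP := fP_deriv th hy
  have h := ((((((ha.add hb).mul hP).add ((ha.pow 3).const_mul 3)).add
    (((ha.pow 2).mul hb).const_mul 7)).sub ((ha.mul (hb.pow 2)).const_mul 4)).sub
    ((hb.pow 3).const_mul 8)).div_const 24
  refine (h.congr_deriv ?_)
  simp only [Pi.add_apply, Pi.pow_apply]
  push_cast
  ring

/-- The first integral. -/
noncomputable def fV (y : ℝ) : ℝ :=
  9 * (rho (ww y) * fT y) / (BB (Qn y)) ^ 2 -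
    (ww y * (ww y + 1) * (ww y + 9) * rho1 (ww y)) * BB (Qn y)

theorem alg1 (a b P R R1 π : ℝ) (hB : a + b ≠ 0) (w : ℝ)
    (hw : w = -9 * ((a - b) / 6) / ((a + b) / 2)) (T T2 : ℝ)
    (hT : T = ((a + b) * P + 3 * a ^ 3 + 7 * (a ^ 2 * b) - 4 * (a * b ^ 2) - 8 * b ^ 3) / 24)
    (hT2 : T2 = ((((a * P + a ^ 3 + 6 * (a ^ 2 * b) - 8 * b ^ 3) / 12) +
      ((b * P + 2 * a ^ 3 + a ^ 2 * b - 4 * (a * b ^ 2)) / 12)) * P
      + (a + b) * ((P ^ 2 - 5 * a ^ 4 - 12 * (a ^ 3 * b) + 16 * (a * b ^ 3)) / 12)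
      + (9 * a ^ 2 + 14 * (a * b) - 4 * b ^ 2) *
        ((a * P + a ^ 3 + 6 * (a ^ 2 * b) - 8 * b ^ 3) / 12)
      + (7 * a ^ 2 - 8 * (a * b) - 24 * b ^ 2) *
        ((b * P + 2 * a ^ 3 + a ^ 2 * b - 4 * (a * b ^ 2)) / 12)) / 24) :
    (9 * (R1 * (-π * ((2 * b - a) * ((a + 2 * b) / 3)) * w) * T + R * (-π * T2)) *
        ((a + b) / 2) ^ 2 - 9 * (R * T) * (2 * ((a + b) / 2) * (-π * T))) / (((a + b) / 2) ^ 2) ^ 2
      - ((-((w + 3) * R)) * (-π * ((2 * b - a) * ((a + 2 * b) / 3)) * w) * ((a + b) / 2) +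
        (w * (w + 1) * (w + 9) * R1) * (-π * T)) = 0 := by
  subst hw hT hT2
  field_simp
  ring

theorem fV_deriv (rho_ : G_RHO) (th : G_TH) (pos : G_POS) (w_ : G_W) {y : ℝ} (hy : 0 < y) :
    HasDerivAt fV 0 y := by
  obtain ⟨hwpos, hw⟩ := w_.1 y hy
  have hB := BB_deriv th hy
  have hT := fT_deriv th hy
  have hBne : BB (Qn y) ≠ 0 := ne_of_gt (pos y hy).2.1
  have hrho := (rho_.1 (ww y) hwpos).comp y hw
  have hq := (rho_.2.1 (ww y) hwpos).comp y hw
  have h := (((hrho.mul hT).const_mul 9).div (hB.pow 2) (pow_ne_zero 2 hBne)).sub (hq.mul hB)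
  have hab : fa y + fb y ≠ 0 := by
    rw [BB_eq] at hBne
    intro h0
    exact hBne (by rw [h0]; norm_num)
  refine h.congr_deriv ?_
  have key := alg1 (fa y) (fb y) (fP y) (rho (ww y)) (rho1 (ww y)) Real.pi hab (ww y) (ww_eq y)
    (fT y) _ rfl rfl
  rw [← key]
  simp only [Function.comp, BB_eq, AA_eq, CC_eq, Pi.mul_apply, Pi.pow_apply]
  push_cast
  ring

theorem Qn_tendsto : Tendsto Qn atTop (𝓝 0) := by
  have h : Tendsto (fun y : ℝ => Real.exp (-(Real.pi * y))) atTop (𝓝 0) := by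
    refine Real.tendsto_exp_neg_atTop_nhds_zero.comp ?_
    exact tendsto_id.const_mul_atTop Real.pi_pos
  have := h.neg
  rw [neg_zero] at this
  exact this

theorem fa_lim : Tendsto fa atTop (𝓝 1) := by
  have h := (aS_continuousAt (q := 0) (by norm_num)).tendsto
  rw [aS_zero] at h
  exact h.comp Qn_tendsto

theorem fb_lim : Tendsto fb atTop (𝓝 1) := by
  have h := (aS_continuousAt (q := 0) (by norm_num)).tendsto
  rw [aS_zero] at h
  have h2 : Tendsto (fun y => Qn y ^ 2) atTop (𝓝 0) := by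
    have := Qn_tendsto.pow 2
    simpa using this
  exact h.comp h2

theorem fP_lim : Tendsto fP atTop (𝓝 1) := by
  have h := (LS_continuousAt PG.N (q := 0) (by norm_num)).tendsto
  rw [LS_zero] at h
  have h2 := ((h.comp Qn_tendsto).const_mul 24).const_sub 1
  have e : (1:ℝ) - 24 * 0 = 1 := by norm_num
  rw [e] at h2
  exact h2

theorem fT_lim : Tendsto fT atTop (𝓝 0) := by
  have h := (((((((fa_lim.add fb_lim).mul fP_lim).add ((fa_lim.pow 3).const_mul 3)).add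
    (((fa_lim.pow 2).mul fb_lim).const_mul 7)).sub ((fa_lim.mul (fb_lim.pow 2)).const_mul 4)).sub
    ((fb_lim.pow 3).const_mul 8)).div_const 24)
  have e : (((1 + 1) * 1 + 3 * 1 ^ 3 + 7 * (1 ^ 2 * 1) - 4 * (1 * 1 ^ 2) - 8 * 1 ^ 3) / 24 : ℝ) = 0 := by
    norm_num
  rw [e] at h
  exact h

theorem B_lim : Tendsto (fun y => BB (Qn y)) atTop (𝓝 1) := by
  have h := (fa_lim.add fb_lim).div_const 2
  have e : ((1 + 1) / 2 : ℝ) = 1 := by norm_num
  rw [e] at h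
  exact h

theorem w_lim : Tendsto ww atTop (𝓝 0) := by
  have h := (((fa_lim.sub fb_lim).div_const 6).const_mul (-9)).div B_lim one_ne_zero
  have e : (-9 * ((1 - 1) / 6) / 1 : ℝ) = 0 := by norm_num
  rw [e] at h
  exact h

theorem rho_lim (rho_ : G_RHO) (w_ : G_W) : Tendsto (fun y => rho (ww y)) atTop (𝓝 (rho 0)) := by
  have h := (rho_.2.2.2.1 0 (by simp)).tendsto
  refine h.comp ?_
  rw [tendsto_nhdsWithin_iff]
  refine ⟨w_lim, ?_⟩
  filter_upwards [eventually_gt_atTop 0] with y hy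
  exact (w_.1 y hy).1.le

theorem fV_lim (rho_ : G_RHO) (w_ : G_W) : Tendsto fV atTop (𝓝 0) := by
  have h1 := (((rho_lim rho_ w_).mul fT_lim).const_mul 9).div (B_lim.pow 2) (by norm_num)
  have h2 : Tendsto (fun y => ww y * (ww y + 1) * (ww y + 9) * rho1 (ww y) * BB (Qn y)) atTop
      (𝓝 0) := by
    have h3 : Tendsto (fun y => |ww y * (ww y + 1) * (ww y + 9)| * (1 + ww y) * |BB (Qn y)|) atTop
        (𝓝 0) := by
      have := (((((w_lim.mul (w_lim.add_const 1)).mul (w_lim.add_const 9)).abs).mul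
        (w_lim.const_add 1)).mul B_lim.abs)
      have e : |(0:ℝ) * (0 + 1) * (0 + 9)| * (1 + 0) * |(1:ℝ)| = 0 := by norm_num
      rw [e] at this
      exact this
    refine squeeze_zero_norm' ?_ h3
    filter_upwards [eventually_gt_atTop 0] with y hy
    have hb := rho_.2.2.1 (ww y) (w_.1 y hy).1.le
    rw [Real.norm_eq_abs, abs_mul, abs_mul]
    gcongr
  have h := h1.sub h2
  have e : (9 * (rho 0 * 0) / 1 ^ 2 - 0 : ℝ) = 0 := by norm_num
  rw [e] at h
  exact h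

theorem wr (rho_ : G_RHO) (th : G_TH) (pos : G_POS) (w_ : G_W) : G_WR := by
  intro y hy
  have hV : ∀ y : ℝ, 0 < y → fV y = 0 := fun y hy =>
    const_lim (fun z hz => fV_deriv rho_ th pos w_ hz) (fV_lim rho_ w_) hy
  have hder : ∀ y : ℝ, 0 < y → HasDerivAt (fun y => rho (ww y) / BB (Qn y)) 0 y := by
    intro y hy
    obtain ⟨hwpos, hw⟩ := w_.1 y hy
    have hB := BB_deriv th hy
    have hBne : BB (Qn y) ≠ 0 := ne_of_gt (pos y hy).2.1
    have hrho := (rho_.1 (ww y) hwpos).comp y hw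
    have h := hrho.div hB hBne
    refine h.congr_deriv ?_
    have hv := hV y hy
    unfold fV at hv
    have hab : fa y + fb y ≠ 0 := by
      rw [BB_eq] at hBne
      intro h0
      exact hBne (by rw [h0]; norm_num)
    simp only [Function.comp]
    rw [BB_eq, ww_eq] at hv
    rw [BB_eq, AA_eq, CC_eq, ww_eq]
    set R := rho (-9 * ((fa y - fb y) / 6) / ((fa y + fb y) / 2)) with hR
    set R1 := rho1 (-9 * ((fa y - fb y) / 6) / ((fa y + fb y) / 2)) with hR1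
    rw [div_eq_zero_iff]
    left
    field_simp at hv
    field_simp
    linear_combination (Real.pi / 432) * hv
  have hlim : Tendsto (fun y => rho (ww y) / BB (Qn y)) atTop
      (𝓝 (Real.pi / (3 * Real.sqrt 3))) := by
    have := (rho_lim rho_ w_).div B_lim one_ne_zero
    rw [rho_.2.2.2.2, div_one] at this
    exact this
  have h := const_lim hder hlim hy
  have hBne : BB (Qn y) ≠ 0 := ne_of_gt (pos y hy).2.1
  rw [div_eq_iff hBne] at h
  exact h

end ECC.PkWR
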